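import Pool.Agent.Helper14.LE.Stmts2

/-!
# MP_08fe4e_an, module ABSD: verification of the hypotheses of ABS
-/

open MeasureTheory Set Filter Topology InnerProductSpace Laplacian
open scoped Manifold ContDiff

noncomputable section

namespace LEP.H56

/-! ## smooth cutoffs -/

lemma exists_cutoff {K V : Set ℂ} (hK : IsCompact K) (hV : IsOpen V) (hKV : K ⊆ V) :
    ∃ f : ℂ → ℝ, ContDiff ℝ ∞ f ∧ (∀ x ∈ K, f x = 1) ∧ HasCompactSupport f ∧ tsupport f ⊆ V := by
  obtain ⟨K', hK', hKK', hK'V⟩ := exists_compact_between hK hV hKV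
  obtain ⟨f, hf1, hf0, -⟩ := exists_contMDiffMap_one_nhds_of_subset_interior (n := ⊤) 𝓘(ℝ, ℂ)
    hK.isClosed hKK'
  have hsup : Function.support (f : ℂ → ℝ) ⊆ K' := by
    intro x hx
    by_contra h
    exact hx (hf0 x h)
  refine ⟨f, f.contMDiff.contDiff, fun x hx => hf1.self_of_nhdsSet x hx,
    HasCompactSupport.of_support_subset_isCompact hK' hsup, ?_⟩
  exact (closure_minimal hsup hK'.isClosed).trans hK'V

lemma psi_smooth {z : ℂ} (hz : z ≠ 0) : ContDiffAt ℝ ∞ psi z := by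
  have h1 : ContDiffAt ℝ ∞ (fun w : ℂ => w.re) z := Complex.reCLM.contDiff.contDiffAt
  have h2 : ContDiffAt ℝ ∞ (fun w : ℂ => w.im) z := Complex.imCLM.contDiff.contDiffAt
  have h3 : ContDiffAt ℝ ∞ (fun w : ℂ => ‖w‖) z := contDiffAt_norm ℝ hz
  exact (h1.mul h2).div h3 (norm_ne_zero_iff.2 hz)

lemma psi_pos {z : ℂ} (hz : z ∈ Qd) : 0 < psi z := by
  obtain ⟨h1, h2⟩ := hz
  have h0 : z ≠ 0 := by
    rintro rfl
    simp at h1
  exact div_pos (mul_pos h1 h2) (norm_pos_iff.2 h0)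

/-- continuity and compact support of the Laplacian -/
lemma lap_cont {φ : ℂ → ℝ} (hφ : ContDiff ℝ 2 φ) : Continuous (Δ φ) := by
  rw [laplacian_eq_iteratedFDeriv_complexPlane]
  have h : Continuous (iteratedFDeriv ℝ 2 φ) := hφ.continuous_iteratedFDeriv le_rfl
  exact (((ContinuousMultilinearMap.apply ℝ (fun _ : Fin 2 => ℂ) ℝ ![1, 1]).continuous.comp h)).add
    (((ContinuousMultilinearMap.apply ℝ (fun _ : Fin 2 => ℂ) ℝ
      ![Complex.I, Complex.I]).continuous.comp h))

lemma lap_supp {φ : ℂ → ℝ} (hc : HasCompactSupport φ) : HasCompactSupport (Δ φ) := by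
  refine HasCompactSupport.of_support_subset_isCompact hc ?_
  intro x hx
  by_contra h
  apply hx
  have h0 : φ =ᶠ[𝓝 x] fun _ => (0 : ℝ) := by
    have := notMem_tsupport_iff_eventuallyEq.1 h
    exact this
  have h1 := laplacian_congr_nhds h0
  rw [h1.self_of_nhds]
  simp

/-- the key functional -/
lemma exists_h {R : ℝ → ℝ} (hR : Prof R) (hKAP : ST_KAP) (hGREP : ST_GREP) (hGF2 : ST_GF2)
    (hGEO : ST_GEO) {K K' : Set ℂ} (hK : IsCompact K) (hK' : IsCompact K') (hKD : K ⊆ Ddom R)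
    (hK'D : K' ⊆ Ddom R) (hd : Disjoint K K') :
    ∃ h : Lp ℝ 2 (volume.restrict (Ddom R)), (∀ x ∈ K, ⟪kap (Ddom R) x, h⟫_ℝ = 1) ∧
      ∀ x ∈ K', ⟪kap (Ddom R) x, h⟫_ℝ = 0 := by
  obtain ⟨hkM, -, hkT, -, -, -⟩ := hKAP R hR
  have hDo : IsOpen (Ddom R) := (hGEO.1 R hR).2.1
  have hG := hGF2 R hR
  have hV : IsOpen (Ddom R \ K') := hDo.sdiff hK'.isClosed
  obtain ⟨f, fs, f1, fc, ft⟩ := exists_cutoff hK hV
    (fun x hx => ⟨hKD hx, fun h => (Set.disjoint_left.1 hd hx) h⟩)
  set φ : ℂ → ℝ := fun z => f z * psi z with hφ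
  have hts : tsupport φ ⊆ tsupport f := tsupport_mul_subset_left
  have hφs : ContDiff ℝ ∞ φ := by
    refine contDiff_iff_contDiffAt.2 ?_
    intro x
    by_cases hx : x ∈ tsupport f
    · have hxQ : x ∈ Qd := (ft hx).1.2
      have hx0 : x ≠ 0 := by
        rintro rfl
        exact lt_irrefl _ hxQ.1
      exact fs.contDiffAt.mul (psi_smooth hx0)
    · have h0 : f =ᶠ[𝓝 x] 0 := notMem_tsupport_iff_eventuallyEq.1 hx
      have h1 : φ =ᶠ[𝓝 x] fun _ => (0 : ℝ) := by
        filter_upwards [h0] with y hy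
        simp [hφ, hy]
      exact (contDiffAt_const (c := (0 : ℝ))).congr_of_eventuallyEq h1
  have hφ2 : ContDiff ℝ 2 φ := contDiff_infty.1 hφs 2
  have hφc : HasCompactSupport φ := fc.mul_right
  have hL : MemLp (fun x => -(Δ φ) x) 2 (volume.restrict (Ddom R)) := by
    have h1 : MemLp (Δ φ) 2 (volume : Measure ℂ) :=
      (lap_cont hφ2).memLp_of_hasCompactSupport (lap_supp hφc)
    exact (h1.restrict _).neg
  have key : ∀ x ∈ Ddom R, ⟪kap (Ddom R) x, hL.toLp⟫_ℝ = f x := by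
    intro x hx
    rw [hkT x hx]
    have h1 : TD (Ddom R) hL.toLp x = φ x := by
      have h2 := (hGREP (Ddom R) (gD (Ddom R)) φ hDo hG hφ2 hφc
        (hts.trans (ft.trans (fun y hy => hy.1))) x hx).2
      rw [h2, ← integral_neg]
      unfold TD
      refine integral_congr_ae ?_
      have h3 := hL.coeFn_toLp
      filter_upwards [h3, ae_restrict_mem hDo.measurableSet] with y hy hyD
      rw [hy, hG.symm x hx y hyD]
      ring
    rw [h1, hφ]
    have := (psi_pos hx.2).ne'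
    field_simp
  refine ⟨hL.toLp, fun x hx => ?_, fun x hx => ?_⟩
  · rw [key x (hKD hx), f1 x hx]
  · rw [key x (hK'D hx)]
    by_contra h
    exact (ft (subset_tsupport f h)).2 hx

/-! ## windows -/

/-- polar coordinates -/
def pol (q : ℝ × ℝ) : ℂ := q.1 * (Real.cos q.2 + Real.sin q.2 * Complex.I)

lemma pol_cont : Continuous pol := by
  unfold pol
  fun_prop

lemma pol_norm {r t : ℝ} (hr : 0 < r) : ‖pol (r, t)‖ = r := by
  unfold pol
  rw [norm_mul]
  have h1 : ‖((Real.cos t : ℂ) + (Real.sin t : ℂ) * Complex.I)‖ = 1 := by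
    rw [Complex.ofReal_cos, Complex.ofReal_sin, Complex.norm_cos_add_sin_mul_I]
  simp only
  rw [h1, Complex.norm_real, Real.norm_of_nonneg hr.le, mul_one]

lemma pol_arg {r t : ℝ} (hr : 0 < r) (ht : t ∈ Ioc (-Real.pi) Real.pi) :
    Complex.arg (pol (r, t)) = t := by
  unfold pol
  rw [Complex.ofReal_cos, Complex.ofReal_sin]
  exact Complex.arg_mul_cos_add_sin_mul_I hr ht

lemma pol_eq {z : ℂ} : z = pol (‖z‖, Complex.arg z) := by
  unfold pol
  rw [Complex.ofReal_cos, Complex.ofReal_sin]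
  exact (Complex.norm_mul_cos_add_sin_mul_I z).symm

/-- a polar rectangle -/
def rect (a b m M : ℝ) : Set ℂ := {z | Complex.arg z ∈ Icc a b ∧ m ≤ ‖z‖ ∧ ‖z‖ ≤ M}

lemma rect_image {a b m M : ℝ} (ha : -Real.pi < a) (hb : b ≤ Real.pi) (hm : 0 < m) :
    rect a b m M = pol '' (Icc m M ×ˢ Icc a b) := by
  ext z
  constructor
  · rintro ⟨h1, h2, h3⟩
    exact ⟨(‖z‖, Complex.arg z), ⟨⟨h2, h3⟩, h1⟩, pol_eq.symm⟩
  · rintro ⟨⟨r, t⟩, ⟨h1, h2⟩, rfl⟩
    have hr : 0 < r := hm.trans_le h1.1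
    have ht : t ∈ Ioc (-Real.pi) Real.pi := ⟨ha.trans_le h2.1, h2.2.trans hb⟩
    refine ⟨?_, ?_, ?_⟩
    · rw [pol_arg hr ht]; exact h2
    · rw [pol_norm hr]; exact h1.1
    · rw [pol_norm hr]; exact h1.2

lemma rect_compact {a b m M : ℝ} (ha : -Real.pi < a) (hb : b ≤ Real.pi) (hm : 0 < m) :
    IsCompact (rect a b m M) := by
  rw [rect_image ha hb hm]
  exact (isCompact_Icc.prod isCompact_Icc).image pol_cont

lemma rect_nonempty {a b m M : ℝ} (ha : -Real.pi < a) (hb : b ≤ Real.pi) (hm : 0 < m)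
    (hab : a < b) (hmM : m < M) : (rect a b m M).Nonempty := by
  rw [rect_image ha hb hm]
  exact ((nonempty_Icc.2 hmM.le).prod (nonempty_Icc.2 hab.le)).image _

lemma rect_open_sub {a b m M : ℝ} (ha : 0 < a) (hb : b < Real.pi) (hm : 0 < m)
    (hab : a < b) (hmM : m < M) {U : Set ℂ} (hU : IsOpen U) (hn : (U ∩ rect a b m M).Nonempty) :
    ∃ V : Set ℂ, IsOpen V ∧ V.Nonempty ∧ V ⊆ U ∩ rect a b m M := by
  have hpi := Real.pi_pos
  refine ⟨U ∩ ((Complex.slitPlane ∩ Complex.arg ⁻¹' Ioo a b) ∩ {z | m < ‖z‖ ∧ ‖z‖ < M}),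
    ?_, ?_, ?_⟩
  · refine hU.inter (IsOpen.inter ?_ ?_)
    · have hc : ContinuousOn Complex.arg Complex.slitPlane :=
        fun z hz => (Complex.continuousAt_arg hz).continuousWithinAt
      exact hc.isOpen_inter_preimage Complex.isOpen_slitPlane isOpen_Ioo
    · exact (isOpen_lt continuous_const continuous_norm).inter
        (isOpen_lt continuous_norm continuous_const)
  · obtain ⟨z, hzU, hz⟩ := hn
    have ha' : -Real.pi < a := by linarith
    rw [rect_image ha' hb.le hm] at hz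
    obtain ⟨q, hq, rfl⟩ := hz
    have hcl : q ∈ closure (Ioo m M ×ˢ Ioo a b) := by
      rw [closure_prod_eq, closure_Ioo hmM.ne, closure_Ioo hab.ne]
      exact hq
    obtain ⟨⟨r, t⟩, hp, hr, ht⟩ := mem_closure_iff.1 hcl (pol ⁻¹' U) (hU.preimage pol_cont) hzU
    have hr0 : 0 < r := hm.trans hr.1
    have ht0 : t ∈ Ioc (-Real.pi) Real.pi := ⟨by linarith [ht.1], by linarith [ht.2]⟩
    have harg := pol_arg hr0 ht0
    have hno := pol_norm (t := t) hr0
    refine ⟨pol (r, t), hp, ⟨?_, ?_⟩, ?_⟩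
    · rw [Complex.mem_slitPlane_iff_arg]
      refine ⟨?_, ?_⟩
      · rw [harg]; linarith [ht.2]
      · intro h0
        rw [h0, norm_zero] at hno
        linarith
    · show Complex.arg (pol (r, t)) ∈ Ioo a b
      rw [harg]; exact ht
    · show m < ‖pol (r, t)‖ ∧ ‖pol (r, t)‖ < M
      rw [hno]; exact hr
  · rintro z ⟨h1, ⟨-, h2⟩, h3, h4⟩
    exact ⟨h1, ⟨h2.1.le, h2.2.le⟩, h3.le, h4.le⟩

/-! ## the measure -/

lemma lam_fin {D W : Set ℂ} (hW : IsCompact W) (h0 : ∀ z ∈ W, z ≠ 0) : lamD D W < ⊤ := by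
  have hc : ContinuousOn (fun y : ℂ => psi y ^ 2 / ‖y‖ ^ 4) W := by
    intro z hz
    have hz0 := h0 z hz
    have h1 : ContinuousAt psi z := (psi_smooth hz0).continuousAt
    have h2 : ContinuousAt (fun y : ℂ => ‖y‖ ^ 4) z := by fun_prop
    exact ((h1.pow 2).div h2 (pow_ne_zero 4 (norm_ne_zero_iff.2 hz0))).continuousWithinAt
  obtain ⟨C, hC⟩ := hW.exists_bound_of_continuousOn hc
  have hm : MeasurableSet W := hW.isClosed.measurableSet
  unfold lamD
  rw [withDensity_apply _ hm]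
  calc ∫⁻ y in W, ENNReal.ofReal (psi y ^ 2 / ‖y‖ ^ 4) ∂(volume.restrict D)
      ≤ ∫⁻ y in W, ENNReal.ofReal C ∂(volume.restrict D) := by
        refine setLIntegral_mono' hm ?_
        intro y hy
        exact ENNReal.ofReal_le_ofReal ((le_abs_self _).trans (hC y hy))
    _ = ENNReal.ofReal C * (volume.restrict D) W := setLIntegral_const _ _
    _ ≤ ENNReal.ofReal C * volume W := by
        gcongr
        exact Measure.restrict_le_self
    _ < ⊤ := ENNReal.mul_lt_top ENNReal.ofReal_lt_top hW.measure_lt_top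

lemma psi_meas : Measurable psi := by
  unfold psi
  fun_prop

lemma lam_pos {D V : Set ℂ} (hV : IsOpen V) (hn : V.Nonempty) (hVD : V ⊆ D) (hD : D ⊆ Qd) :
    0 < lamD D V := by
  have hf : Measurable (fun y : ℂ => ENNReal.ofReal (psi y ^ 2 / ‖y‖ ^ 4)) := by
    have := psi_meas
    fun_prop
  rw [pos_iff_ne_zero]
  unfold lamD
  intro h
  rw [withDensity_apply_eq_zero hf] at h
  have h1 : {x | ENNReal.ofReal (psi x ^ 2 / ‖x‖ ^ 4) ≠ 0} ∩ V = V := by
    refine inter_eq_right.2 ?_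
    intro x hx
    have hxQ := hD (hVD hx)
    have hp := psi_pos hxQ
    have hx0 : x ≠ 0 := by
      rintro rfl
      exact lt_irrefl _ hxQ.1
    have hn0 : 0 < ‖x‖ := norm_pos_iff.2 hx0
    have : 0 < psi x ^ 2 / ‖x‖ ^ 4 := by positivity
    simpa using this
  rw [h1, Measure.restrict_apply hV.measurableSet, inter_eq_left.2 hVD] at h
  exact (hV.measure_pos volume hn).ne' h

theorem st_ABSD (hKAP : ST_KAP) (hGREP : ST_GREP) (hGF2 : ST_GF2) (hGEO : ST_GEO)
    (hT2 : ST_T2) : ST_ABSD := by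
  intro R hR a b ha hab hb L hL hW
  have hpi := Real.pi_pos
  obtain ⟨hkM, hkG, hkT, hkC, hkS, hkI⟩ := hKAP R hR
  obtain ⟨-, -, -, -, hGam, -, -⟩ := hT2 R hR
  have hDQ : Ddom R ⊆ Qd := inter_subset_right
  have hth : (0 : ℝ) < th0 := by unfold th0; positivity
  have hal0 : al 0 = th0 := rfl
  have hal1 : al 1 = 20 * th0 := rfl
  have hbe0 : be 0 = 19 * th0 := by
    have : (be 0 : ℝ) = th0 + Real.pi / ((3 : ℕ) : ℝ) := rfl
    rw [this]; unfold th0; push_cast; ring
  have hbe1 : be 1 = 26 * th0 := by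
    have : (be 1 : ℝ) = 20 * th0 + Real.pi / ((9 : ℕ) : ℝ) := rfl
    rw [this]; unfold th0; push_cast; ring
  have h54 : Real.pi = 54 * th0 := by unfold th0; ring
  have hapos : ∀ i, 0 < a i := by
    intro i
    have := ha i
    fin_cases i
    · change al 0 < a 0 at this
      change 0 < a 0
      rw [hal0] at this; linarith
    · change al 1 < a 1 at this
      change 0 < a 1
      rw [hal1] at this; linarith
  have hblt : ∀ i, b i < Real.pi := by
    intro i
    have := hb i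
    fin_cases i
    · change b 0 < be 0 at this
      change b 0 < Real.pi
      rw [hbe0] at this; linarith
    · change b 1 < be 1 at this
      change b 1 < Real.pi
      rw [hbe1] at this; linarith
  have hL0 : 0 < L := by linarith
  set m : Fin 2 → ℝ := fun i => L ^ (ee i - 1 / 10) with hm
  set M : Fin 2 → ℝ := fun i => L ^ (ee i + 1 / 10) with hM
  have hmpos : ∀ i, 0 < m i := fun i => Real.rpow_pos_of_pos hL0 _
  have hmM : ∀ i, m i < M i := fun i =>
    Real.rpow_lt_rpow_of_exponent_lt hL (by linarith)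
  have hWr : ∀ i, Wo a b L i = rect (a i) (b i) (m i) (M i) := fun i => rfl
  have hWc : ∀ i, IsCompact (Wo a b L i) := fun i => by
    rw [hWr]
    exact rect_compact (by linarith [hapos i]) (hblt i).le (hmpos i)
  have hWn : ∀ i, (Wo a b L i).Nonempty := fun i => by
    rw [hWr]
    exact rect_nonempty (by linarith [hapos i]) (hblt i).le (hmpos i) (hab i) (hmM i)
  have hW0 : ∀ i, ∀ z ∈ Wo a b L i, z ≠ 0 := by
    intro i z hz h0
    have h1 := hz.2.1
    have h2 := hmpos i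
    rw [h0, norm_zero] at h1
    exact absurd h1 (not_le.2 h2)
  have hWp : ∀ i, ∀ U, IsOpen U → (U ∩ Wo a b L i).Nonempty →
      0 < lamD (Ddom R) (U ∩ Wo a b L i) := by
    intro i U hU hn
    obtain ⟨V, hV, hVn, hVs⟩ := rect_open_sub (hapos i) (hblt i) (hmpos i) (hab i) (hmM i) hU hn
    exact (lam_pos hV hVn (fun x hx => hW i (hVs hx).2) hDQ).trans_le (measure_mono hVs)
  have hdisj : Disjoint (Wo a b L 0) (Wo a b L 1) := by
    rw [Set.disjoint_left]
    intro z h0 h1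
    have h2 := h0.1.2
    have h3 := h1.1.1
    have h4 := hb 0
    have h5 := ha 1
    rw [hbe0] at h4
    rw [hal1] at h5
    linarith
  exact
    { sm := hkS
      m1 := (hWc 0).isClosed.measurableSet
      m2 := (hWc 1).isClosed.measurableSet
      c1 := hWc 0
      c2 := hWc 1
      n1 := hWn 0
      n2 := hWn 1
      disj := hdisj
      k1 := hkC.mono (hW 0)
      k2 := hkC.mono (hW 1)
      f1 := lam_fin (hWc 0) (hW0 0)
      f2 := lam_fin (hWc 1) (hW0 1)
      p1 := hWp 0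
      p2 := hWp 1
      cross := by
        intro x hx y hy
        have hx' := hW 0 hx
        have hy' := hW 1 hy
        rw [hkG x hx' y hy']
        exact div_nonneg (hGam x hx' y hy').1
          (mul_nonneg (psi_pos (hDQ hx')).le (psi_pos (hDQ hy')).le)
      h1 := exists_h hR hKAP hGREP hGF2 hGEO (hWc 0) (hWc 1) (hW 0) (hW 1) hdisj
      h2 := by
        obtain ⟨h, h1, h2⟩ := exists_h hR hKAP hGREP hGF2 hGEO (hWc 1) (hWc 0) (hW 1) (hW 0)
          hdisj.symm
        exact ⟨h, h2, h1⟩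
      tm := by
        unfold tau
        fun_prop
      t0 := by
        intro x
        unfold tau
        exact le_min (by norm_num) (by positivity)
      t1 := ⟨19 / 20, by norm_num, fun x => min_le_left _ _⟩
      ti := ⟨20, hkI⟩ }

end LEP.H56
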